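import Mathlib
import Pool.Agent.H325.EN.Defs

/-!
# Project EN (helper325): assembly (helper767)
-/

set_option autoImplicit false

open scoped commutatorElement

namespace Pool.Agent.H767.EN

open Pool.Agent.H325.EN

/-- an element of the closure lies in the closure of a finite subset -/
theorem fin_mem {G : Type} [Group G] (s : Set G) (x : G) (hx : x ∈ Subgroup.closure s) :
    ∃ t : Set G, t.Finite ∧ t ⊆ s ∧ x ∈ Subgroup.closure t := by
  induction hx using Subgroup.closure_induction with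
  | mem x hx =>
    exact ⟨{x}, Set.finite_singleton x, Set.singleton_subset_iff.mpr hx,
      Subgroup.subset_closure rfl⟩
  | one => exact ⟨∅, Set.finite_empty, Set.empty_subset _, Subgroup.one_mem _⟩
  | mul x y _ _ hx hy =>
    obtain ⟨t1, f1, s1, m1⟩ := hx
    obtain ⟨t2, f2, s2, m2⟩ := hy
    exact ⟨t1 ∪ t2, f1.union f2, Set.union_subset s1 s2,
      Subgroup.mul_mem _ (Subgroup.closure_mono Set.subset_union_left m1)
        (Subgroup.closure_mono Set.subset_union_right m2)⟩
  | inv x _ hx =>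
    obtain ⟨t1, f1, s1, m1⟩ := hx
    exact ⟨t1, f1, s1, Subgroup.inv_mem _ m1⟩

theorem fin_sub {G : Type} [Group G] (s F : Set G) (hF : F.Finite)
    (h : F ⊆ Subgroup.closure s) :
    ∃ t : Set G, t.Finite ∧ t ⊆ s ∧ F ⊆ Subgroup.closure t := by
  choose! t ht1 ht2 ht3 using (fun x (hx : x ∈ F) => fin_mem s x (h hx))
  refine ⟨⋃ x ∈ F, t x, hF.biUnion ht1, Set.iUnion₂_subset ht2, fun x hx => ?_⟩
  exact Subgroup.closure_mono (Set.subset_biUnion_of_mem hx) (ht3 x hx)

/-- conjugates of a left 3-Engel element -/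
theorem pair_conj (h3 : S_ENG.{0}) {G : Type} [Group G] (a : G) (ha : L3 a) (p q : G) :
    Commute ⁅p * a * p⁻¹, q * a * q⁻¹⁆ (q * a * q⁻¹) := by
  have h := (h3 G a ha (p⁻¹ * q)).2
  have h' := h.map (MulAut.conj p).toMonoidHom
  have e1 : (MulAut.conj p).toMonoidHom a = p * a * p⁻¹ := rfl
  have e2 : (MulAut.conj p).toMonoidHom (p⁻¹ * q * a * (p⁻¹ * q)⁻¹) = q * a * q⁻¹ := by
    show p * (p⁻¹ * q * a * (p⁻¹ * q)⁻¹) * p⁻¹ = q * a * q⁻¹
    group
  rw [map_commutatorElement, e1, e2] at h'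
  exact h'

/-- the bound in one coordinate -/
theorem bound_coord (h3 : S_ENG.{0}) {m M : ℕ}
    (hM : ∀ (N : Type) [Group N], Group.IsNilpotent N → NoTwo N →
      ∀ x : Fin m → N, Subgroup.closure (Set.range x) = ⊤ →
      (∀ (i j : Fin m) (g : N), Commute ⁅g * x j * g⁻¹, x i⁆ (x i)) →
        Subgroup.lowerCentralSeries (⊤ : Subgroup N) M = ⊥)
    {Q : Type} [Group Q] (hnil : Group.IsNilpotent Q) (hno : NoTwo Q) (a : Q) (ha : L3 a)
    (y : Fin m → Q) (hy : ∀ k, ∃ p, y k = p * a * p⁻¹) :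
    (Subgroup.closure (Set.range y)).lowerCentralSeries M = ⊥ := by
  set N := Subgroup.closure (Set.range y) with hN
  have hb : ∀ k, y k ∈ N := fun k => Subgroup.subset_closure ⟨k, rfl⟩
  let y' : Fin m → N := fun k => ⟨y k, hb k⟩
  have hgen : Subgroup.closure (Set.range y') = ⊤ := by
    have h1 : Set.range y' = ((↑) : N → Q) ⁻¹' (Set.range y) := by
      ext z
      constructor
      · rintro ⟨i, rfl⟩
        exact ⟨i, rfl⟩
      · rintro ⟨i, hi⟩
        exact ⟨i, Subtype.ext hi⟩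
    rw [h1]
    exact Subgroup.closure_closure_coe_preimage
  have h := hM N (Subgroup.isNilpotent N)
    (fun g hg => Subtype.ext (hno g.1 (congrArg Subtype.val hg))) y' hgen (by
      intro i j g
      obtain ⟨p, hp⟩ := hy j
      obtain ⟨q, hq⟩ := hy i
      have h4 := pair_conj h3 a ha (g.1 * p) q
      have e1 : g.1 * p * a * (g.1 * p)⁻¹ = g.1 * y j * g.1⁻¹ := by
        rw [hp]
        group
      rw [e1, ← hq] at h4
      apply Subtype.ext
      exact h4)
  rw [← Subgroup.top_subtype_lowerCentralSeries, h, Subgroup.map_bot]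

/-- the normal closure of a family of left 3-Engel elements in the product -/
theorem lnil_normal (h1 : S_SG.{0}) (h3 : S_ENG.{0}) (Q : ℕ → Type) [∀ n, Group (Q n)]
    (hnil : ∀ n, Group.IsNilpotent (Q n)) (hno : ∀ n, NoTwo (Q n)) (a : ∀ n, Q n)
    (ha : ∀ n, L3 (a n)) : LNil (Subgroup.normalClosure {a}) := by
  intro F hF hFs
  obtain ⟨t, ht1, ht2, ht3⟩ := fin_sub (Group.conjugatesOfSet {a}) F hF hFs
  obtain ⟨m, y, hy⟩ := ht1.fin_embedding
  obtain ⟨M, hM⟩ := h1 m
  have hyc : ∀ k, ∃ p, y k = p * a * p⁻¹ := by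
    intro k
    have h4 : y k ∈ Group.conjugatesOfSet {a} := ht2 (hy ▸ ⟨k, rfl⟩)
    rw [Group.mem_conjugatesOfSet_iff] at h4
    obtain ⟨b, hb, hc⟩ := h4
    rw [Set.mem_singleton_iff] at hb
    subst hb
    obtain ⟨p, hp⟩ := isConj_iff.mp hc
    exact ⟨p, hp.symm⟩
  have hbot : (Subgroup.closure (Set.range y)).lowerCentralSeries M = ⊥ := by
    rw [eq_bot_iff]
    intro z hz
    rw [Subgroup.mem_bot]
    funext n
    have h4 := Subgroup.mem_map_of_mem (Pi.evalMonoidHom Q n) hz
    rw [Subgroup.map_lowerCentralSeries, MonoidHom.map_closure, ← Set.range_comp] at h4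
    have h5 := bound_coord h3 hM (hnil n) (hno n) (a n) (ha n)
      (fun k => y k n) (fun k => by
        obtain ⟨p, hp⟩ := hyc k
        exact ⟨p n, by rw [hp]; rfl⟩)
    have h6 : (Pi.evalMonoidHom Q n ∘ fun k => y k) = fun k => y k n := rfl
    have h7 : (Pi.evalMonoidHom Q n ∘ ⇑y) = fun k => y k n := rfl
    rw [h7, h5, Subgroup.mem_bot] at h4
    exact h4
  rw [hy] at hbot
  refine Subgroup.isNilpotent_of_lowerCentralSeries_eq_bot (n := M) ?_
  rw [eq_bot_iff, ← hbot]
  exact Subgroup.lowerCentralSeries_mono M ((Subgroup.closure_le _).mpr ht3)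

theorem lnil_bot {G : Type} [Group G] : LNil (⊥ : Subgroup G) := by
  intro F _ hF
  refine Subgroup.isNilpotent_of_lowerCentralSeries_eq_bot (n := 0) ?_
  rw [Subgroup.lowerCentralSeries_zero, eq_bot_iff, Subgroup.closure_le]
  exact hF

theorem lnil_sup (h2 : S_HP.{0}) {G : Type} [Group G] {d : ℕ} (N : Fin d → Subgroup G)
    (hN : ∀ i, (N i).Normal) (hL : ∀ i, LNil (N i)) (s : Finset (Fin d)) :
    (s.sup N).Normal ∧ LNil (s.sup N) := by
  classical
  induction s using Finset.induction_on with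
  | empty =>
    rw [Finset.sup_empty]
    exact ⟨inferInstance, lnil_bot⟩
  | insert i s hi ih =>
    rw [Finset.sup_insert]
    have h4 := ih.1
    have h5 := hN i
    exact ⟨inferInstance, h2 G (N i) (s.sup N) h5 h4 (hL i) ih.2⟩

/-- a counterexample -/
structure CE (d n : ℕ) where
  Q : Type
  inst : Group Q
  g : Fin d → Q
  nil : Group.IsNilpotent Q
  no : NoTwo Q
  gen : Subgroup.closure (Set.range g) = ⊤
  l3 : ∀ i : Fin d, L3 (g i)
  ne : Subgroup.lowerCentralSeries (⊤ : Subgroup Q) n ≠ ⊥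

theorem no_CE (h1 : S_SG.{0}) (h2 : S_HP.{0}) (h3 : S_ENG.{0}) (d : ℕ)
    (C : ∀ n, CE d n) : False := by
  let inst : ∀ n, Group (C n).Q := fun n => (C n).inst
  let b : Fin d → (∀ n, (C n).Q) := fun i n => (C n).g i
  have hL : ∀ i, LNil (Subgroup.normalClosure {b i}) := fun i =>
    lnil_normal h1 h3 (fun n => (C n).Q) (fun n => (C n).nil) (fun n => (C n).no) (b i)
      (fun n => (C n).l3 i)
  have hsup := (lnil_sup h2 (fun i => Subgroup.normalClosure {b i}) (fun i => inferInstance) hL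
    Finset.univ).2
  have hnil := hsup (Set.range b) (Set.finite_range b) (by
    rintro _ ⟨i, rfl⟩
    have h4 : Subgroup.normalClosure {b i} ≤
        (Finset.univ : Finset (Fin d)).sup (fun i => Subgroup.normalClosure {b i}) :=
      Finset.le_sup (f := fun i => Subgroup.normalClosure {b i}) (Finset.mem_univ i)
    exact h4 (Subgroup.subset_normalClosure rfl))
  obtain ⟨c, hc⟩ := (Subgroup.isNilpotent_iff_lowerCentralSeries _).mp hnil
  apply (C c).ne
  have h4 : (Subgroup.closure (Set.range b)).map (Pi.evalMonoidHom (fun n => (C n).Q) c) = ⊤ := by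
    rw [MonoidHom.map_closure, ← Set.range_comp]
    exact (C c).gen
  have h5 : ((Subgroup.closure (Set.range b)).lowerCentralSeries c).map
      (Pi.evalMonoidHom (fun n => (C n).Q) c) = ⊥ := by
    rw [hc, Subgroup.map_bot]
  rw [Subgroup.map_lowerCentralSeries, h4] at h5
  exact h5

/-- **EN5.** -/
theorem asm (h1 : S_SG.{0}) (h2 : S_HP.{0}) (h3 : S_ENG.{0}) : S_MAIN.{0} := by
  by_contra hcon
  have hd : ∃ d, ∀ n, Nonempty (CE d n) := by
    by_contra hno
    have hno' : ∀ d, ∃ n, ¬ Nonempty (CE d n) := by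
      intro d
      by_contra h
      exact hno ⟨d, fun n => by
        by_contra h4
        exact h ⟨n, h4⟩⟩
    choose f hf using hno'
    apply hcon
    refine ⟨f, fun d G _ g hnil hnt hgen hl3 => ?_⟩
    by_contra hne
    exact hf d ⟨⟨G, inferInstance, g, hnil, hnt, hgen, hl3, hne⟩⟩
  obtain ⟨d, hd⟩ := hd
  exact no_CE h1 h2 h3 d (fun n => (hd n).some)

end Pool.Agent.H767.EN
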